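import Pool.Agent.TH628.AT.Tools

/-!
# AT-PH1: the lower bound on `[q,1]`, from the maximum principle
-/

set_option autoImplicit false

open MeasureTheory ProbabilityTheory Set Filter Topology

namespace Pool.TH628.AT

open Pool.TH198.AT

lemma hasDerivAt_one_sub_sq (x c : ℝ) :
    HasDerivAt (fun u : ℝ => c * (1 - Real.tanh (x + u) ^ 2))
      (c * (-(2 * Real.tanh x * (1 - Real.tanh x ^ 2)))) 0 := by
  have h3 : HasDerivAt (fun u : ℝ => Real.tanh (x + u)) (1 - Real.tanh x ^ 2) 0 := by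
    have h2 : HasDerivAt Real.tanh (1 - Real.tanh x ^ 2) (x + 0) := by
      rw [add_zero]; exact hasDerivAt_tanh x
    exact h2.comp_const_add x 0
  have h4 := ((h3.pow 2).const_sub 1).const_mul c
  refine h4.congr_deriv ?_
  simp

set_option maxHeartbeats 4000000 in
theorem t_PH1 (hM : St_MAX) (hL : St_LEIB) (hK : St_KD) : St_PH1 := by
  obtain ⟨Kx, Kxx, CK, hd, hdw, hKc, hKxc, hKxxc, hb, hK0⟩ := hK
  intro β q ζ f hβ hq0 hq1 hζ hf x0 y0
  obtain ⟨fx, fxx, hfd, hfxc, hfxxc, ⟨Cf, hfb⟩, hfeq⟩ := hf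
  set a : ℝ := 2 * β ^ 2 with hadef
  have ha : 0 < a := by positivity
  have hβa : β ^ 2 = a / 2 := by rw [hadef]; ring
  have hCK : 0 ≤ CK := (abs_nonneg _).trans (hb 0 0 le_rfl).1
  have hCf : 0 ≤ Cf := (abs_nonneg _).trans (hfb 1 ⟨zero_le_one, le_rfl⟩ 0).1
  set ρ : ℝ → ℝ := fun r => clamp ζ r - 1 with hρdef
  have hρm : Measurable ρ := (clamp_mono hζ).measurable.sub_const 1
  have hρb : ∀ r, |ρ r| ≤ 1 := by
    intro r
    have h := clamp_bd hζ r
    rw [hρdef]
    exact abs_le.mpr ⟨by simp only; linarith [h.1], by simp only; linarith [h.2]⟩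
  have hsub : ∀ {t : ℝ}, t ∈ Icc q 1 → t ∈ Icc (0 : ℝ) 1 := fun ht => ⟨hq0.trans ht.1, ht.2⟩
  have hw : ∀ t : ℝ, ∀ r ∈ Icc t 1, 0 ≤ a * (r - t) := fun t r hr =>
    mul_nonneg ha.le (sub_nonneg.mpr hr.1)
  have hcomp : ∀ (F : ℝ → ℝ → ℝ), ContinuousOn (fun p : ℝ × ℝ => F p.1 p.2) (Ici 0 ×ˢ univ) →
      ∀ t x, ContinuousOn (fun r => F (a * (r - t)) x) (Icc t 1) := by
    intro F hF t x
    have h1 : ContinuousOn (fun r : ℝ => ((a * (r - t), x) : ℝ × ℝ)) (Icc t 1) := by
      fun_prop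
    exact hF.comp h1 fun r hr => ⟨hw t r hr, mem_univ _⟩
  -- the integrals
  set R : ℝ → ℝ → ℝ := fun t x => ∫ r in t..1, ρ r * KK (a * (r - t)) x with hR
  set R1 : ℝ → ℝ → ℝ := fun t x => ∫ r in t..1, ρ r * Kx (a * (r - t)) x with hR1
  set R2 : ℝ → ℝ → ℝ := fun t x => ∫ r in t..1, ρ r * Kxx (a * (r - t)) x with hR2
  have hD1 : ∀ t ∈ Icc q 1, ∀ x, HasDerivAt (R t) (R1 t x) x := fun t ht x =>
    hasDerivAt_int (k := fun r x => KK (a * (r - t)) x) (kx := fun r x => Kx (a * (r - t)) x)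
      ht.2 hρm hρb (fun r hr x => (hd _ x (hw t r hr)).1)
      (hcomp _ hKc t) (hcomp _ hKxc t) (fun r hr x => (hb _ x (hw t r hr)).1)
      (fun r hr x => (hb _ x (hw t r hr)).2.1) x
  have hD2 : ∀ t ∈ Icc q 1, ∀ x, HasDerivAt (R1 t) (R2 t x) x := fun t ht x =>
    hasDerivAt_int (k := fun r x => Kx (a * (r - t)) x) (kx := fun r x => Kxx (a * (r - t)) x)
      ht.2 hρm hρb (fun r hr x => (hd _ x (hw t r hr)).2)
      (hcomp _ hKxc t) (hcomp _ hKxxc t) (fun r hr x => (hb _ x (hw t r hr)).2.1)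
      (fun r hr x => (hb _ x (hw t r hr)).2.2) x
  have hRb : ∀ t ∈ Icc q 1, ∀ x, |R t x| ≤ CK := by
    intro t ht x
    rw [← Real.norm_eq_abs]
    have h1 : ‖R t x‖ ≤ CK * |1 - t| := by
      refine intervalIntegral.norm_integral_le_of_norm_le_const
        (f := fun r => ρ r * KK (a * (r - t)) x) fun r hr => ?_
      rw [uIoc_of_le ht.2] at hr
      rw [norm_mul]
      calc ‖ρ r‖ * ‖KK (a * (r - t)) x‖ ≤ 1 * CK :=
            mul_le_mul (hρb r) (hb _ x (hw t r (Ioc_subset_Icc_self hr))).1 (norm_nonneg _)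
              zero_le_one
        _ = CK := one_mul CK
    refine h1.trans ?_
    have h2 : |1 - t| ≤ 1 := abs_le.mpr ⟨by linarith [ht.2], by linarith [hq0.trans ht.1]⟩
    calc CK * |1 - t| ≤ CK * 1 := mul_le_mul_of_nonneg_left h2 hCK
      _ = CK := mul_one CK
  -- right derivative of `R` in time
  have hRt : ∀ t ∈ Ico q 1, ∀ x, HasDerivWithinAt (fun τ => R τ x)
      (-(ρ t * Real.tanh x ^ 2) - a * (R2 t x / 2 + Real.tanh x * R1 t x)) (Ici t) t := by
    intro t ht x
    have ht' : t ∈ Icc q 1 := ⟨ht.1, ht.2.le⟩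
    have h := hL a t 1 1 ρ (fun _ w => KK w x) (fun _ w => Kxx w x / 2 + Real.tanh x * Kx w x)
      ha ht.2 hρm (fun r _ => hρb r)
      ((clamp_rc hζ (hq0.trans ht.1) ht.2).sub continuousWithinAt_const)
      (fun r _ w hw0 => hdw w x hw0) ?_ ?_
    · have e : (∫ r in t..1, ρ r * (Kxx (a * (r - t)) x / 2 + Real.tanh x * Kx (a * (r - t)) x))
          = R2 t x / 2 + Real.tanh x * R1 t x := by
        rw [hR2, hR1]
        rw [← intervalIntegral.integral_div, ← intervalIntegral.integral_const_mul,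
          ← intervalIntegral.integral_add]
        · refine intervalIntegral.integral_congr fun r _ => ?_
          ring
        · exact (intervalIntegrable_mul ht'.2 hρm hρb (hcomp _ hKxxc t x)
            (fun r hr => (hb _ x (hw t r hr)).2.2)).div_const 2
        · exact (intervalIntegrable_mul ht'.2 hρm hρb (hcomp _ hKxc t x)
            (fun r hr => (hb _ x (hw t r hr)).2.1)).const_mul _
      rw [← e, ← hK0 x]
      exact h
    · have h1 : ContinuousOn (fun p : ℝ × ℝ => ((p.2, x) : ℝ × ℝ)) (Icc t 1 ×ˢ Ici 0) := by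
        fun_prop
      exact hKc.comp h1 fun p hp => ⟨hp.2, mem_univ _⟩
    · have h1 : ContinuousOn (fun p : ℝ × ℝ => ((p.2, x) : ℝ × ℝ)) (Icc t 1 ×ˢ Ici 0) := by
        fun_prop
      have h2 := hKxxc.comp h1 fun p hp => ⟨hp.2, mem_univ _⟩
      have h3 := hKxc.comp h1 fun p hp => ⟨hp.2, mem_univ _⟩
      exact (h2.div_const 2).add (continuousOn_const.mul h3)
  -- continuity of `R`
  have hRc : ContinuousOn (fun p : ℝ × ℝ => R p.1 p.2) (Icc q 1 ×ˢ univ) := by
    refine contOn_int (M := CK) (G := fun p r => ρ r * KK (a * (r - p.1)) p.2) ?_ ?_ ?_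
    · intro p hp
      exact hρm.aestronglyMeasurable.mul
        (((hcomp _ hKc p.1 p.2).mono Ioc_subset_Icc_self).aestronglyMeasurable measurableSet_Ioc)
    · intro p hp r hr
      rw [abs_mul]
      calc |ρ r| * |KK (a * (r - p.1)) p.2| ≤ 1 * CK :=
            mul_le_mul (hρb r) (hb _ p.2 (hw p.1 r (Ioc_subset_Icc_self hr))).1 (abs_nonneg _)
              zero_le_one
        _ = CK := one_mul CK
    · intro p hp r hr
      refine continuousWithinAt_const.mul ?_
      have hpos : 0 < a * (r - p.1) := mul_pos ha (sub_pos.mpr hr.1)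
      have h1 : ContinuousAt (fun p' : ℝ × ℝ => KK p'.1 p'.2) (a * (r - p.1), p.2) :=
        (hKc (a * (r - p.1), p.2) ⟨hpos.le, mem_univ _⟩).continuousAt
          (prod_mem_nhds (Ici_mem_nhds hpos) univ_mem)
      have h2 : ContinuousAt (fun p' : ℝ × ℝ => ((a * (r - p'.1), p'.2) : ℝ × ℝ)) p := by
        fun_prop
      exact (ContinuousAt.comp (f := fun p' : ℝ × ℝ => ((a * (r - p'.1), p'.2) : ℝ × ℝ))
        (g := fun p' : ℝ × ℝ => KK p'.1 p'.2) h1 h2).continuousWithinAt
  -- facts on `f`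
  have hgm : ∀ x, ContinuousOn (fun r => fx r x) (Icc 0 1) := fun x =>
    hfxc.comp (by fun_prop : ContinuousOn (fun r : ℝ => ((r, x) : ℝ × ℝ)) (Icc 0 1))
      fun r hr => ⟨hr, mem_univ _⟩
  have hgm2 : ∀ x, ContinuousOn (fun r => fxx r x) (Icc 0 1) := fun x =>
    hfxxc.comp (by fun_prop : ContinuousOn (fun r : ℝ => ((r, x) : ℝ × ℝ)) (Icc 0 1))
      fun r hr => ⟨hr, mem_univ _⟩
  set g : ℝ → ℝ → ℝ := fun r x => β ^ 2 * (fxx r x + clamp ζ r * fx r x ^ 2) with hg
  set Mg : ℝ := β ^ 2 * (Cf + Cf ^ 2) with hMg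
  have hMg0 : 0 ≤ Mg := by positivity
  have hgb : ∀ r ∈ Icc (0 : ℝ) 1, ∀ x, |g r x| ≤ Mg := by
    intro r hr x
    obtain ⟨h1, h2⟩ := hfb r hr x
    have h3 := clamp_bd hζ r
    have h4 : fx r x ^ 2 ≤ Cf ^ 2 := by
      rw [← sq_abs]; exact pow_le_pow_left₀ (abs_nonneg _) h1 2
    rw [hg, hMg]
    simp only
    rw [abs_mul, abs_of_nonneg (sq_nonneg β)]
    refine mul_le_mul_of_nonneg_left ?_ (sq_nonneg β)
    calc |fxx r x + clamp ζ r * fx r x ^ 2| ≤ |fxx r x| + |clamp ζ r * fx r x ^ 2| :=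
          abs_add_le _ _
      _ ≤ Cf + Cf ^ 2 := by
        rw [abs_of_nonneg (mul_nonneg h3.1 (sq_nonneg _))]
        nlinarith [sq_nonneg (fx r x)]
  have hgmeas : ∀ t ∈ Icc (0 : ℝ) 1, ∀ x, AEStronglyMeasurable (fun r => g r x)
      (volume.restrict (Ioc t 1)) := by
    intro t ht x
    have hs : Ioc t 1 ⊆ Icc (0 : ℝ) 1 := fun r hr => ⟨ht.1.trans hr.1.le, hr.2⟩
    have h1 := ((hgm x).mono hs).aestronglyMeasurable (μ := volume) measurableSet_Ioc
    have h2 := ((hgm2 x).mono hs).aestronglyMeasurable (μ := volume) measurableSet_Ioc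
    exact (h2.add (((clamp_mono hζ).measurable.aestronglyMeasurable).mul (h1.pow 2))).const_mul _
  have hfg : ∀ t ∈ Icc (0 : ℝ) 1, ∀ x, f t x = Real.log (Real.cosh x) + ∫ r in t..1, g r x := by
    intro t ht x
    rw [hfeq t ht x]
    congr 1
    refine intervalIntegral.integral_congr fun r hr => ?_
    rw [uIcc_of_le ht.2] at hr
    simp only [hg]
    rw [clamp_eq ⟨ht.1.trans hr.1, hr.2⟩]
  have hft : ∀ t ∈ Ico (0 : ℝ) 1, ∀ x, HasDerivWithinAt (fun τ => f τ x) (-g t x) (Ici t) t := by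
    intro t ht x
    have ht' : t ∈ Icc (0 : ℝ) 1 := ⟨ht.1, ht.2.le⟩
    have hint : IntervalIntegrable (fun r => g r x) volume t 1 := by
      rw [intervalIntegrable_iff, uIoc_of_le ht.2.le]
      refine (integrable_const Mg).mono' (hgmeas t ht' x) ?_
      filter_upwards [ae_restrict_mem measurableSet_Ioc] with r hr
      exact hgb r ⟨ht.1.trans hr.1.le, hr.2⟩ x
    have hmeasf : StronglyMeasurableAtFilter (fun r => g r x) (𝓝[Ioi t] t) volume :=
      ⟨Ioc t 1, Ioc_mem_nhdsGT ht.2, hgmeas t ht' x⟩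
    have hcw : ContinuousWithinAt (fun r => g r x) (Ioi t) t := by
      have h1 : ContinuousWithinAt (clamp ζ) (Ioi t) t :=
        (clamp_rc hζ ht.1 ht.2).mono Ioi_subset_Ici_self
      have hmem : Icc (0 : ℝ) 1 ∈ 𝓝[Ioi t] t := by
        refine mem_of_superset (Ioc_mem_nhdsGT ht.2) fun r hr => ⟨ht.1.trans hr.1.le, hr.2⟩
      have h2 : ContinuousWithinAt (fun r => fx r x) (Ioi t) t :=
        (hgm x t ht').mono_of_mem_nhdsWithin hmem
      have h3 : ContinuousWithinAt (fun r => fxx r x) (Ioi t) t :=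
        (hgm2 x t ht').mono_of_mem_nhdsWithin hmem
      exact (h3.add (h1.mul (h2.pow 2))).const_mul _
    have h := intervalIntegral.integral_hasDerivWithinAt_left (s := Ici t) (t := Ioi t) hint hmeasf
      hcw
    have h2 := h.const_add (Real.log (Real.cosh x))
    refine h2.congr_of_eventuallyEq ?_ (hfg t ht' x)
    have h3 : ∀ᶠ r in 𝓝[Ici t] t, r < 1 := (gt_mem_nhds ht.2).filter_mono nhdsWithin_le_nhds
    filter_upwards [h3, self_mem_nhdsWithin] with r hr hr2
    exact hfg r ⟨ht.1.trans hr2, hr.le⟩ x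
  have hfc : ContinuousOn (fun p : ℝ × ℝ => f p.1 p.2) (Icc q 1 ×ˢ univ) := by
    have h1 : ContinuousOn (fun p : ℝ × ℝ => ∫ r in p.1..1, g r p.2) (Icc q 1 ×ˢ univ) := by
      refine contOn_int (M := Mg) (G := fun p r => g r p.2) ?_ ?_ ?_
      · intro p hp
        exact hgmeas p.1 (hsub hp.1) p.2
      · intro p hp r hr
        exact hgb r ⟨(hsub hp.1).1.trans hr.1.le, hr.2⟩ p.2
      · intro p hp r hr
        have hr01 : r ∈ Icc (0 : ℝ) 1 := ⟨(hsub hp.1).1.trans hr.1.le, hr.2⟩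
        have h2 : Continuous (fun p' : ℝ × ℝ => ((r, p'.2) : ℝ × ℝ)) := by fun_prop
        have h3 : Continuous (fun p' : ℝ × ℝ => fx r p'.2) :=
          hfxc.comp_continuous h2 fun p' => ⟨hr01, mem_univ _⟩
        have h4 : Continuous (fun p' : ℝ × ℝ => fxx r p'.2) :=
          hfxxc.comp_continuous h2 fun p' => ⟨hr01, mem_univ _⟩
        exact (continuous_const.mul (h4.add (continuous_const.mul (h3.pow 2)))).continuousWithinAt
    have h5 : ContinuousOn (fun p : ℝ × ℝ => Real.log (Real.cosh p.2)) (Icc q 1 ×ˢ univ) := by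
      have : Continuous (fun x : ℝ => Real.log (Real.cosh x)) :=
        continuous_iff_continuousAt.mpr fun x => (hasDerivAt_logcosh x).continuousAt
      exact (this.comp continuous_snd).continuousOn
    exact (h5.add h1).congr fun p hp => hfg p.1 (hsub hp.1) p.2
  have hflow : ∀ t ∈ Icc q 1, ∀ y, -Mg ≤ f t y := by
    intro t ht y
    rw [hfg t (hsub ht) y]
    have h1 : ‖∫ r in t..1, g r y‖ ≤ Mg * |1 - t| := by
      refine intervalIntegral.norm_integral_le_of_norm_le_const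
        (f := fun r => g r y) fun r hr => ?_
      rw [uIoc_of_le ht.2] at hr
      exact hgb r ⟨(hsub ht).1.trans hr.1.le, hr.2⟩ y
    have h2 : |1 - t| ≤ 1 := abs_le.mpr ⟨by linarith [ht.2], by linarith [hq0.trans ht.1]⟩
    have h3 : Mg * |1 - t| ≤ Mg * 1 := mul_le_mul_of_nonneg_left h2 hMg0
    have h4 := abs_le.mp (show |∫ r in t..1, g r y| ≤ Mg by
      rw [← Real.norm_eq_abs]; linarith)
    linarith [logcosh_nonneg y, h4.1]
  -- the functions of the maximum principle
  set A : ℝ → ℝ → ℝ := fun t x => Real.log (Real.cosh x) + β ^ 2 * (1 - t) + β ^ 2 * R t x with hA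
  set A1 : ℝ → ℝ → ℝ := fun t x => Real.tanh x + β ^ 2 * R1 t x with hA1
  set A2 : ℝ → ℝ → ℝ := fun t x => (1 - Real.tanh x ^ 2) + β ^ 2 * R2 t x with hA2
  have hAd1 : ∀ t ∈ Icc q 1, ∀ x, HasDerivAt (A t) (A1 t x) x := fun t ht x =>
    ((hasDerivAt_logcosh x).add_const _).add ((hD1 t ht x).const_mul _)
  have hAd2 : ∀ t ∈ Icc q 1, ∀ x, HasDerivAt (A1 t) (A2 t x) x := fun t ht x =>
    (hasDerivAt_tanh x).add ((hD2 t ht x).const_mul _)
  set D : ℝ → ℝ → ℝ → ℝ := fun t x y => f t y - A t x - (y - x) * Real.tanh x with hD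
  set C0 : ℝ := a + 2 + Mg + β ^ 2 + β ^ 2 * CK with hC0
  have key := hM a q 1 C0 D
    (fun t x y => -g t y - (-β ^ 2 + β ^ 2 *
      (-(ρ t * Real.tanh x ^ 2) - a * (R2 t x / 2 + Real.tanh x * R1 t x))))
    (fun t x y => fx t y - A1 t x - (y - x) * (1 - Real.tanh x ^ 2))
    (fun t x y => fxx t y - A2 t x - (y - x) * (-(2 * Real.tanh x * (1 - Real.tanh x ^ 2))))
    (fun t x y => -A1 t x + Real.tanh x - (y - x) * (1 - Real.tanh x ^ 2))
    (fun t x y => fx t y - Real.tanh x)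
    (fun _ x _ => a * Real.tanh x) (fun t x _ => a * clamp ζ t * Real.tanh x)
    ha hq1 ?_ ?_ ?_ ?_
  · have h := key q ⟨le_rfl, hq1⟩ x0 y0
    have e : (∫ r in q..1, (ζ r - 1) * KK (2 * β ^ 2 * (r - q)) x0) = R q x0 := by
      rw [hR]
      refine intervalIntegral.integral_congr fun r hr => ?_
      rw [uIcc_of_le hq1] at hr
      simp only [hρdef]
      rw [clamp_eq ⟨hq0.trans hr.1, hr.2⟩]
    rw [e]
    simp only [hD, hA] at h
    linarith
  · -- continuity of `D`
    have h1 : ContinuousOn (fun p : ℝ × ℝ × ℝ => f p.1 p.2.2) (Icc q 1 ×ˢ univ) :=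
      hfc.comp (f := fun p : ℝ × ℝ × ℝ => ((p.1, p.2.2) : ℝ × ℝ)) (by fun_prop)
        fun p hp => ⟨hp.1, mem_univ _⟩
    have h2 : ContinuousOn (fun p : ℝ × ℝ × ℝ => R p.1 p.2.1) (Icc q 1 ×ˢ univ) :=
      hRc.comp (f := fun p : ℝ × ℝ × ℝ => ((p.1, p.2.1) : ℝ × ℝ)) (by fun_prop)
        fun p hp => ⟨hp.1, mem_univ _⟩
    have h3 : Continuous (fun x : ℝ => Real.log (Real.cosh x)) :=
      continuous_iff_continuousAt.mpr fun x => (hasDerivAt_logcosh x).continuousAt
    have h4 : Continuous (fun p : ℝ × ℝ × ℝ => Real.log (Real.cosh p.2.1)) :=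
      h3.comp (by fun_prop)
    have h5 : Continuous (fun p : ℝ × ℝ × ℝ => Real.tanh p.2.1) :=
      continuous_tanh'.comp (by fun_prop)
    have h6 : Continuous (fun p : ℝ × ℝ × ℝ => β ^ 2 * (1 - p.1)) := by fun_prop
    have h7 : Continuous (fun p : ℝ × ℝ × ℝ => p.2.2 - p.2.1) := by fun_prop
    exact (h1.sub ((h4.continuousOn.add h6.continuousOn).add (continuousOn_const.mul h2))).sub
      (h7.mul h5).continuousOn
  · intro t ht x y
    have ht' : t ∈ Icc q 1 := ⟨ht.1, ht.2.le⟩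
    have ht01 : t ∈ Icc (0 : ℝ) 1 := hsub ht'
    have hT := abs_tanh_le x
    have hz := clamp_bd hζ t
    refine ⟨?_, ?_, ?_, ?_, ?_, ?_, ?_, ?_⟩
    · have h1 := hft t ⟨ht01.1, ht.2⟩ y
      have h2 : HasDerivWithinAt (fun τ : ℝ => β ^ 2 * (1 - τ)) (-β ^ 2) (Ici t) t := by
        have := (((hasDerivAt_id t).const_sub 1).const_mul (β ^ 2)).hasDerivWithinAt (s := Ici t)
        exact this.congr_deriv (by ring)
      have h3 := (h2.const_add (Real.log (Real.cosh x))).add ((hRt t ht x).const_mul (β ^ 2))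
      exact (h1.sub h3).sub_const _
    · have h1 : HasDerivAt (fun u : ℝ => f t (y + u)) (fx t y) 0 := by
        have := (hfd t ht01 y).1
        have h2 : HasDerivAt (f t) (fx t y) (y + 0) := by rwa [add_zero]
        exact h2.comp_const_add y 0
      have h2 : HasDerivAt (fun u : ℝ => A t (x + u)) (A1 t x) 0 := by
        have h2 : HasDerivAt (A t) (A1 t x) (x + 0) := by rw [add_zero]; exact hAd1 t ht' x
        exact h2.comp_const_add x 0
      have h3 : HasDerivAt (fun u : ℝ => Real.tanh (x + u)) (1 - Real.tanh x ^ 2) 0 := by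
        have h2 : HasDerivAt Real.tanh (1 - Real.tanh x ^ 2) (x + 0) := by
          rw [add_zero]; exact hasDerivAt_tanh x
        exact h2.comp_const_add x 0
      have h4 : HasDerivAt (fun u : ℝ => (y - x) * Real.tanh (x + u))
          ((y - x) * (1 - Real.tanh x ^ 2)) 0 := h3.const_mul _
      have h5 := (h1.sub h2).sub h4
      refine h5.congr_of_eventuallyEq (Eventually.of_forall fun u => ?_)
      have e : y + u - (x + u) = y - x := by ring
      show f t (y + u) - A t (x + u) - (y + u - (x + u)) * Real.tanh (x + u) = _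
      rw [e]
      rfl
    · have h1 : HasDerivAt (fun u : ℝ => fx t (y + u)) (fxx t y) 0 := by
        have h2 : HasDerivAt (fx t) (fxx t y) (y + 0) := by
          rw [add_zero]; exact (hfd t ht01 y).2
        exact h2.comp_const_add y 0
      have h2 : HasDerivAt (fun u : ℝ => A1 t (x + u)) (A2 t x) 0 := by
        have h2 : HasDerivAt (A1 t) (A2 t x) (x + 0) := by rw [add_zero]; exact hAd2 t ht' x
        exact h2.comp_const_add x 0
      have h4 := hasDerivAt_one_sub_sq x (y - x)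
      have h5 := (h1.sub h2).sub h4
      refine h5.congr_of_eventuallyEq (Eventually.of_forall fun u => ?_)
      have e : y + u - (x + u) = y - x := by ring
      show fx t (y + u) - A1 t (x + u) - (y + u - (x + u)) * (1 - Real.tanh (x + u) ^ 2) = _
      rw [e]
      rfl
    · have h1 := (hAd1 t ht' x).const_sub (f t y)
      have h2 : HasDerivAt (fun u : ℝ => (y - u) * Real.tanh u)
          (-1 * Real.tanh x + (y - x) * (1 - Real.tanh x ^ 2)) x :=
        ((hasDerivAt_id x).const_sub y).mul (hasDerivAt_tanh x)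
      have h3 := h1.sub h2
      exact h3.congr_deriv (by ring)
    · have h1 := ((hfd t ht01 y).1.sub_const (A t x)).sub
        (((hasDerivAt_id y).sub_const x).mul_const (Real.tanh x))
      exact h1.congr_deriv (by ring)
    · rw [abs_mul, abs_of_pos ha]
      have : a * |Real.tanh x| ≤ a * 1 := mul_le_mul_of_nonneg_left hT ha.le
      have h2 : 0 ≤ β ^ 2 * CK := by positivity
      have h3 : 0 ≤ β ^ 2 := sq_nonneg β
      rw [hC0]
      linarith
    · rw [abs_mul, abs_mul, abs_of_pos ha, abs_of_nonneg hz.1]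
      have h1 : a * clamp ζ t * |Real.tanh x| ≤ a * 1 * 1 :=
        mul_le_mul (mul_le_mul_of_nonneg_left hz.2 ha.le) hT (abs_nonneg _) (by positivity)
      have h2 : 0 ≤ β ^ 2 * CK := by positivity
      have h3 : 0 ≤ β ^ 2 := sq_nonneg β
      rw [hC0]
      linarith
    · have hsq : 0 ≤ a / 2 * clamp ζ t * (fx t y - Real.tanh x) ^ 2 := by
        have := hz.1
        positivity
      simp only [hg, hA1, hA2, hρdef, hβa]
      nlinarith [hsq]
  · intro x y
    have h1 : f 1 y = Real.log (Real.cosh y) := by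
      rw [hfg 1 ⟨zero_le_one, le_rfl⟩ y, intervalIntegral.integral_same, add_zero]
    have h2 : R 1 x = 0 := by rw [hR]; simp only [intervalIntegral.integral_same]
    simp only [hD, hA]
    rw [h1, h2]
    have := logcosh_tangent x y
    linarith
  · intro t ht x y
    have h1 := hflow t ht y
    have h2 := abs_le.mp (hRb t ht x)
    have h3 := logcosh_le x
    have h4 : (y - x) * Real.tanh x ≤ |x| + |y| := by
      calc (y - x) * Real.tanh x ≤ |(y - x) * Real.tanh x| := le_abs_self _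
        _ = |y - x| * |Real.tanh x| := abs_mul _ _
        _ ≤ |y - x| * 1 := mul_le_mul_of_nonneg_left (abs_tanh_le x) (abs_nonneg _)
        _ ≤ |x| + |y| := by rw [mul_one]; linarith [abs_sub y x]
    have h5 : β ^ 2 * R t x ≤ β ^ 2 * CK := mul_le_mul_of_nonneg_left h2.2 (sq_nonneg β)
    have h6 : β ^ 2 * (1 - t) ≤ β ^ 2 := by
      have := hq0.trans ht.1
      nlinarith [sq_nonneg β]
    have h7 : 0 ≤ β ^ 2 * CK := by positivity
    have h8 : 0 ≤ β ^ 2 := sq_nonneg β
    have hx := abs_nonneg x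
    have hy := abs_nonneg y
    simp only [hD, hA, hC0]
    have h9 : 0 ≤ (a + Mg + β ^ 2 + β ^ 2 * CK) * (|x| + |y|) := by positivity
    nlinarith

end Pool.TH628.AT
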