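import Pool.Agent.TH198.AT.Stmts

/-!
# Tools for AT-G and AT-PH1
-/

set_option autoImplicit false

open MeasureTheory ProbabilityTheory Set Filter Topology

namespace Pool.TH628.AT

open Pool.TH198.AT

/-! ### elementary facts on `tanh` and `log cosh` -/

lemma hasDerivAt_tanh (x : ℝ) : HasDerivAt Real.tanh (1 - Real.tanh x ^ 2) x := by
  have hc : Real.cosh x ≠ 0 := (Real.cosh_pos x).ne'
  have h := (Real.hasDerivAt_sinh x).div (Real.hasDerivAt_cosh x) hc
  have e : (fun y => Real.sinh y / Real.cosh y) = Real.tanh := by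
    funext y; rw [Real.tanh_eq_sinh_div_cosh]
  have h2 : HasDerivAt Real.tanh
      ((Real.cosh x * Real.cosh x - Real.sinh x * Real.sinh x) / Real.cosh x ^ 2) x := by
    rw [← e]; exact h
  convert h2 using 1
  rw [Real.tanh_eq_sinh_div_cosh]
  field_simp

lemma hasDerivAt_logcosh (x : ℝ) :
    HasDerivAt (fun y => Real.log (Real.cosh y)) (Real.tanh x) x := by
  have h := (Real.hasDerivAt_cosh x).log (Real.cosh_pos x).ne'
  rwa [← Real.tanh_eq_sinh_div_cosh] at h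

lemma abs_tanh_le (x : ℝ) : |Real.tanh x| ≤ 1 := by
  have hc := Real.cosh_pos x
  have hs := Real.cosh_sq x
  rw [Real.tanh_eq_sinh_div_cosh, abs_div, abs_of_pos hc, div_le_one hc]
  exact abs_le_of_sq_le_sq (by nlinarith) hc.le

lemma continuous_tanh' : Continuous Real.tanh :=
  continuous_iff_continuousAt.mpr fun x => (hasDerivAt_tanh x).continuousAt

lemma logcosh_tangent (x y : ℝ) :
    Real.log (Real.cosh x) + (y - x) * Real.tanh x ≤ Real.log (Real.cosh y) := by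
  set T := Real.tanh x with hT
  set d := y - x with hd
  have hT1 := abs_le.mp (abs_tanh_le x)
  have hcx := Real.cosh_pos x
  have ha1 : 0 ≤ (1 + T) / 2 := by linarith [hT1.1]
  have hb1 : 0 ≤ (1 - T) / 2 := by linarith [hT1.2]
  have hab : (1 + T) / 2 + (1 - T) / 2 = 1 := by ring
  have hconv := convexOn_exp.2 (mem_univ d) (mem_univ (-d)) ha1 hb1 hab
  simp only [smul_eq_mul] at hconv
  have e1 : (1 + T) / 2 * d + (1 - T) / 2 * -d = d * T := by ring
  have e2 : (1 + T) / 2 * Real.exp d + (1 - T) / 2 * Real.exp (-d)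
      = Real.cosh d + T * Real.sinh d := by
    rw [Real.cosh_eq, Real.sinh_eq]; ring
  rw [e1, e2] at hconv
  have e3 : Real.cosh y = Real.cosh x * (Real.cosh d + T * Real.sinh d) := by
    have : y = x + d := by rw [hd]; ring
    rw [this, Real.cosh_add, hT, Real.tanh_eq_sinh_div_cosh]
    field_simp
  have hpos : 0 < Real.cosh d + T * Real.sinh d := lt_of_lt_of_le (Real.exp_pos _) hconv
  rw [e3, Real.log_mul hcx.ne' hpos.ne']
  have h4 := Real.log_le_log (Real.exp_pos _) hconv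
  rw [Real.log_exp] at h4
  linarith

lemma logcosh_nonneg (x : ℝ) : 0 ≤ Real.log (Real.cosh x) :=
  Real.log_nonneg (Real.one_le_cosh x)

lemma logcosh_le (x : ℝ) : Real.log (Real.cosh x) ≤ |x| := by
  have h : Real.cosh x ≤ Real.exp |x| := by
    rw [Real.cosh_eq]
    have h1 : Real.exp x ≤ Real.exp |x| := Real.exp_le_exp.mpr (le_abs_self x)
    have h2 : Real.exp (-x) ≤ Real.exp |x| := Real.exp_le_exp.mpr (neg_le_abs x)
    linarith
  have := Real.log_le_log (Real.cosh_pos x) h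
  rwa [Real.log_exp] at this

/-! ### integrals depending on parameters -/

/-- joint continuity of `p ↦ ∫ r in p.1..1, G p r` -/
lemma contOn_int {q M : ℝ} {G : ℝ × ℝ → ℝ → ℝ}
    (hm : ∀ p ∈ Icc q 1 ×ˢ (univ : Set ℝ), AEStronglyMeasurable (G p) (volume.restrict (Ioc p.1 1)))
    (hb : ∀ p ∈ Icc q 1 ×ˢ (univ : Set ℝ), ∀ r ∈ Ioc p.1 1, |G p r| ≤ M)
    (hc : ∀ p ∈ Icc q 1 ×ˢ (univ : Set ℝ), ∀ r ∈ Ioc p.1 1,
      ContinuousWithinAt (fun p' => G p' r) (Icc q 1 ×ˢ (univ : Set ℝ)) p) :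
    ContinuousOn (fun p : ℝ × ℝ => ∫ r in p.1..1, G p r) (Icc q 1 ×ˢ (univ : Set ℝ)) := by
  intro p0 hp0
  have hM : 0 ≤ M ∨ ¬ (0 ≤ M) := em _
  have key : ∀ p ∈ Icc q 1 ×ˢ (univ : Set ℝ), (∫ r in p.1..1, G p r) =
      ∫ r, (Ioc p.1 1).indicator (G p) r ∂(volume.restrict (Ioc q 1)) := by
    intro p hp
    have h1 : p.1 ≤ 1 := hp.1.2
    have h2 : Ioc p.1 1 ⊆ Ioc q 1 := Ioc_subset_Ioc_left hp.1.1
    rw [intervalIntegral.integral_of_le h1, MeasureTheory.integral_indicator measurableSet_Ioc,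
      Measure.restrict_restrict measurableSet_Ioc, inter_eq_left.mpr h2]
  refine ContinuousWithinAt.congr ?_ key (key p0 hp0)
  refine continuousWithinAt_of_dominated (bound := fun _ => |M|) ?_ ?_ ?_ ?_
  · filter_upwards [self_mem_nhdsWithin] with p hp
    have h2 : Ioc p.1 1 ⊆ Ioc q 1 := Ioc_subset_Ioc_left hp.1.1
    refine (aestronglyMeasurable_indicator_iff measurableSet_Ioc).mpr ?_
    rw [Measure.restrict_restrict measurableSet_Ioc, inter_eq_left.mpr h2]
    exact hm p hp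
  · filter_upwards [self_mem_nhdsWithin] with p hp
    refine Eventually.of_forall fun r => ?_
    by_cases hr : r ∈ Ioc p.1 1
    · rw [indicator_of_mem hr]
      exact (hb p hp r hr).trans (le_abs_self M)
    · rw [indicator_of_notMem hr, norm_zero]
      exact abs_nonneg M
  · exact integrable_const _
  · have h0 : ∀ᵐ r ∂(volume.restrict (Ioc q 1)), r ≠ p0.1 := by
      have : ∀ᵐ r ∂(volume : Measure ℝ), r ≠ p0.1 := by
        rw [ae_iff]
        simp
      exact ae_restrict_of_ae this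
    filter_upwards [h0, ae_restrict_mem measurableSet_Ioc] with r hr0 hr
    rcases lt_or_gt_of_ne hr0 with h | h
    · have hev : ∀ᶠ p in 𝓝[Icc q 1 ×ˢ (univ : Set ℝ)] p0,
          (Ioc p.1 1).indicator (G p) r = 0 := by
        have h1 : ∀ᶠ p : ℝ × ℝ in 𝓝 p0, r < p.1 :=
          continuous_fst.continuousAt.eventually (lt_mem_nhds h)
        filter_upwards [h1.filter_mono nhdsWithin_le_nhds] with p hp
        exact indicator_of_notMem (fun hh => absurd hh.1 (not_lt.mpr hp.le)) _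
      have h3 : (Ioc p0.1 1).indicator (G p0) r = 0 :=
        indicator_of_notMem (fun hh => absurd hh.1 (not_lt.mpr h.le)) _
      show Tendsto _ _ (𝓝 ((Ioc p0.1 1).indicator (G p0) r))
      rw [h3]
      exact tendsto_const_nhds.congr' (hev.mono fun p hp => hp.symm)
    · have hev : ∀ᶠ p in 𝓝[Icc q 1 ×ˢ (univ : Set ℝ)] p0,
          (Ioc p.1 1).indicator (G p) r = G p r := by
        have h1 : ∀ᶠ p : ℝ × ℝ in 𝓝 p0, p.1 < r :=
          continuous_fst.continuousAt.eventually (gt_mem_nhds h)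
        filter_upwards [h1.filter_mono nhdsWithin_le_nhds] with p hp
        exact indicator_of_mem (show r ∈ Ioc p.1 1 from ⟨hp, hr.2⟩) _
      have h3 : (Ioc p0.1 1).indicator (G p0) r = G p0 r :=
        indicator_of_mem (show r ∈ Ioc p0.1 1 from ⟨h, hr.2⟩) _
      have h4 := hc p0 hp0 r ⟨h, hr.2⟩
      have h5 : Tendsto (fun p => (Ioc p.1 1).indicator (G p) r)
          (𝓝[Icc q 1 ×ˢ (univ : Set ℝ)] p0) (𝓝 (G p0 r)) :=
        Tendsto.congr' (hev.mono fun p hp => hp.symm) h4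
      show Tendsto _ _ (𝓝 ((Ioc p0.1 1).indicator (G p0) r))
      rw [h3]
      exact h5

/-- derivative in `x` of `∫ ρ(r) k(r,x) dr` -/
lemma hasDerivAt_int {t T B C : ℝ} {ρ : ℝ → ℝ} {k kx : ℝ → ℝ → ℝ} (htT : t ≤ T)
    (hρ : Measurable ρ) (hρb : ∀ r, |ρ r| ≤ B)
    (hk : ∀ r ∈ Icc t T, ∀ x, HasDerivAt (k r) (kx r x) x)
    (hkc : ∀ x, ContinuousOn (fun r => k r x) (Icc t T))
    (hkxc : ∀ x, ContinuousOn (fun r => kx r x) (Icc t T))
    (hkb : ∀ r ∈ Icc t T, ∀ x, |k r x| ≤ C) (hkxb : ∀ r ∈ Icc t T, ∀ x, |kx r x| ≤ C) (x : ℝ) :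
    HasDerivAt (fun x => ∫ r in t..T, ρ r * k r x) (∫ r in t..T, ρ r * kx r x) x := by
  have hB : 0 ≤ B := (abs_nonneg _).trans (hρb 0)
  have hC : 0 ≤ C := (abs_nonneg _).trans (hkb t ⟨le_rfl, htT⟩ 0)
  have hΙ : uIoc t T = Ioc t T := uIoc_of_le htT
  have hmeas : ∀ (g : ℝ → ℝ), ContinuousOn g (Icc t T) →
      AEStronglyMeasurable (fun r => ρ r * g r) (volume.restrict (uIoc t T)) := by
    intro g hg
    rw [hΙ]
    exact hρ.aestronglyMeasurable.mul
      ((hg.mono Ioc_subset_Icc_self).aestronglyMeasurable measurableSet_Ioc)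
  refine (intervalIntegral.hasDerivAt_integral_of_dominated_loc_of_deriv_le
    (F := fun x r => ρ r * k r x) (F' := fun x r => ρ r * kx r x) (bound := fun _ => B * C)
    (s := univ) univ_mem ?_ ?_ ?_ ?_ ?_ ?_).2
  · exact Eventually.of_forall fun y => hmeas _ (hkc y)
  · rw [intervalIntegrable_iff, hΙ]
    refine (integrable_const (B * C)).mono' ?_ ?_
    · have := hmeas _ (hkc x); rwa [hΙ] at this
    · filter_upwards [ae_restrict_mem measurableSet_Ioc] with r hr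
      rw [norm_mul]
      exact mul_le_mul (hρb r) (hkb r (Ioc_subset_Icc_self hr) x) (abs_nonneg _) hB
  · exact hmeas _ (hkxc x)
  · refine Eventually.of_forall fun r hr y _ => ?_
    rw [hΙ] at hr
    rw [norm_mul]
    exact mul_le_mul (hρb r) (hkxb r (Ioc_subset_Icc_self hr) y) (abs_nonneg _) hB
  · exact intervalIntegrable_const
  · refine Eventually.of_forall fun r hr y _ => ?_
    rw [hΙ] at hr
    exact (hk r (Ioc_subset_Icc_self hr) y).const_mul (ρ r)

/-- integrability of `ρ k` -/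
lemma intervalIntegrable_mul {t T B C : ℝ} {ρ k : ℝ → ℝ} (htT : t ≤ T)
    (hρ : Measurable ρ) (hρb : ∀ r, |ρ r| ≤ B) (hkc : ContinuousOn k (Icc t T))
    (hkb : ∀ r ∈ Icc t T, |k r| ≤ C) : IntervalIntegrable (fun r => ρ r * k r) volume t T := by
  have hB : 0 ≤ B := (abs_nonneg _).trans (hρb 0)
  rw [intervalIntegrable_iff, uIoc_of_le htT]
  refine (integrable_const (B * C)).mono' ?_ ?_
  · exact hρ.aestronglyMeasurable.mul
      ((hkc.mono Ioc_subset_Icc_self).aestronglyMeasurable measurableSet_Ioc)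
  · filter_upwards [ae_restrict_mem measurableSet_Ioc] with r hr
    rw [norm_mul]
    exact mul_le_mul (hρb r) (hkb r (Ioc_subset_Icc_self hr)) (abs_nonneg _) hB

/-! ### the clamped distribution function -/

/-- `ζ` extended from `[0,1]` to a monotone function on `ℝ` -/
noncomputable def clamp (ζ : ℝ → ℝ) (r : ℝ) : ℝ := ζ (max 0 (min r 1))

lemma clamp_mem (r : ℝ) : max 0 (min r 1) ∈ Icc (0 : ℝ) 1 :=
  ⟨le_max_left _ _, max_le zero_le_one (min_le_right _ _)⟩

lemma clamp_eq {ζ : ℝ → ℝ} {r : ℝ} (hr : r ∈ Icc (0 : ℝ) 1) : clamp ζ r = ζ r := by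
  rw [clamp, min_eq_left hr.2, max_eq_right hr.1]

lemma clamp_mono {ζ : ℝ → ℝ} (hζ : IsCdf ζ) : Monotone (clamp ζ) := fun r s hrs =>
  hζ.1 (clamp_mem r) (clamp_mem s) (max_le_max le_rfl (min_le_min hrs le_rfl))

lemma clamp_bd {ζ : ℝ → ℝ} (hζ : IsCdf ζ) (r : ℝ) : 0 ≤ clamp ζ r ∧ clamp ζ r ≤ 1 :=
  hζ.2.1 _ (clamp_mem r)

lemma clamp_rc {ζ : ℝ → ℝ} (hζ : IsCdf ζ) {t : ℝ} (h0 : 0 ≤ t) (h1 : t < 1) :
    ContinuousWithinAt (clamp ζ) (Ici t) t := by
  have h := hζ.2.2.2 t ⟨h0, h1⟩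
  have hev : clamp ζ =ᶠ[𝓝[Ici t] t] ζ := by
    have h2 : ∀ᶠ r in 𝓝[Ici t] t, r < 1 := (gt_mem_nhds h1).filter_mono nhdsWithin_le_nhds
    filter_upwards [h2, self_mem_nhdsWithin] with r hr hr2
    exact clamp_eq ⟨h0.trans hr2, hr.le⟩
  exact h.congr_of_eventuallyEq hev (clamp_eq ⟨h0, h1.le⟩)

end Pool.TH628.AT
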